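import Pool.Agent.N549.HG.Stm3
import Pool.Agent.N887.HG.Osc

/-!
# HG/OSC2: the sharp exponential decay of `In n t` for `t ≥ n / 2`
-/

set_option autoImplicit false

namespace Pool.Agent.N603.HG.Osc2

open MeasureTheory Set Pool.Agent.N549.HG
open Complex (I)
open Pool.Agent.N887.HG.Osc (g g_diff norm_g)

/-- the cubic Taylor polynomial is a lower bound for the exponential -/
lemma exp_lower (z : ℝ) (h0 : 0 ≤ z) : Real.exp z * (1 - z + z ^ 2 / 2 - z ^ 3 / 6) ≤ 1 := by
  have hd : ∀ x : ℝ, HasDerivAt (fun z : ℝ => Real.exp z * (1 - z + z ^ 2 / 2 - z ^ 3 / 6))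
      (Real.exp x * (-(x ^ 3 / 6))) x := by
    intro x
    have h1 : HasDerivAt (fun z : ℝ => 1 - z + z ^ 2 / 2 - z ^ 3 / 6)
        (0 - 1 + (2 * x) / 2 - (3 * x ^ 2) / 6) x := by
      have h2 := hasDerivAt_pow 2 x
      have h3 := hasDerivAt_pow 3 x
      have := (((hasDerivAt_const x (1 : ℝ)).sub (hasDerivAt_id x)).add (h2.div_const 2)).sub
        (h3.div_const 6)
      refine this.congr_deriv ?_
      norm_num
    refine ((Real.hasDerivAt_exp x).mul h1).congr_deriv ?_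
    ring
  have hanti : AntitoneOn (fun z : ℝ => Real.exp z * (1 - z + z ^ 2 / 2 - z ^ 3 / 6)) (Ici 0) := by
    refine antitoneOn_of_deriv_nonpos (convex_Ici 0) (fun x _ => (hd x).continuousAt.continuousWithinAt)
      (fun x _ => (hd x).differentiableAt.differentiableWithinAt) (fun x hx => ?_)
    rw [interior_Ici] at hx
    have hx' : 0 < x := hx
    rw [(hd x).deriv]
    have : 0 < Real.exp x * (x ^ 3 / 6) := by positivity
    linarith
  have := hanti (mem_Ici.2 le_rfl) (mem_Ici.2 h0) h0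
  simpa using this

lemma exp_lower' (y : ℝ) (h0 : y ≤ 0) : 1 + y + y ^ 2 / 2 + y ^ 3 / 6 ≤ Real.exp y := by
  have h1 := exp_lower (-y) (by linarith)
  rw [Real.exp_neg, inv_mul_le_iff₀ (Real.exp_pos y), mul_one] at h1
  nlinarith

lemma key (c : ℝ) (h0 : 0 ≤ c) (h1 : c ≤ 1) : c ^ 2 + (c ^ 2) ^ 2 ≤ 2 * Real.exp (c ^ 3 - 1) := by
  have hc3 : c ^ 3 ≤ 1 := pow_le_one₀ h0 h1
  have h2 := exp_lower' (c ^ 3 - 1) (by linarith)
  have h3 : 0 ≤ (1 - c) ^ 2 * (c ^ 7 + 2 * c ^ 6 + 3 * c ^ 5 + 4 * c ^ 4 + 5 * c ^ 3 + 3 * c ^ 2 +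
    4 * c + 2) := by positivity
  nlinarith

/-- the pointwise bound -/
lemma bound (n : ℕ) (t c : ℝ) (ht : (n : ℝ) / 2 ≤ t) (h0 : 0 ≤ c) (h1 : c ≤ 1) :
    Real.exp (-(t * (c * c ^ 2))) * Real.sqrt (c ^ 2 + (c ^ 2) ^ 2) ^ n ≤
      Real.exp (-((1 - Real.log 2) / 2) * n) := by
  have hc3 : 0 ≤ c ^ 3 := by positivity
  have e1 : Real.exp (-(t * (c * c ^ 2))) ≤ Real.exp (-(c ^ 3) / 2) ^ n := by
    rw [← Real.exp_nat_mul]
    apply Real.exp_le_exp.mpr
    have : (n : ℝ) / 2 * c ^ 3 ≤ t * c ^ 3 := mul_le_mul_of_nonneg_right ht hc3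
    have e : c * c ^ 2 = c ^ 3 := by ring
    rw [e]
    linarith
  have e2 : Real.sqrt (c ^ 2 + (c ^ 2) ^ 2) ≤ Real.exp (Real.log 2 / 2 + (c ^ 3 - 1) / 2) := by
    apply Real.sqrt_le_iff.mpr
    refine ⟨(Real.exp_pos _).le, ?_⟩
    rw [← Real.exp_nat_mul]
    have e : ((2 : ℕ) : ℝ) * (Real.log 2 / 2 + (c ^ 3 - 1) / 2) = Real.log 2 + (c ^ 3 - 1) := by
      push_cast; ring
    rw [e, Real.exp_add, Real.exp_log (by norm_num)]
    exact key c h0 h1
  calc Real.exp (-(t * (c * c ^ 2))) * Real.sqrt (c ^ 2 + (c ^ 2) ^ 2) ^ n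
      ≤ Real.exp (-(c ^ 3) / 2) ^ n * Real.exp (Real.log 2 / 2 + (c ^ 3 - 1) / 2) ^ n := by
        apply mul_le_mul e1 _ (by positivity) (by positivity)
        exact pow_le_pow_left₀ (Real.sqrt_nonneg _) e2 n
    _ = Real.exp (-((1 - Real.log 2) / 2) * n) := by
        rw [← mul_pow, ← Real.exp_add, ← Real.exp_nat_mul]
        congr 1
        ring

/-- the height of the path -/
noncomputable def a (u : ℝ) : ℝ := Real.arsinh (Real.cos u ^ 2)

/-- its derivative -/
noncomputable def a' (u : ℝ) : ℝ :=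
  (Real.sqrt (1 + (Real.cos u ^ 2) ^ 2))⁻¹ * (2 * Real.cos u * (-Real.sin u))

lemma a_deriv (u : ℝ) : HasDerivAt a (a' u) u := by
  have h1 := (Real.hasDerivAt_cos u).pow 2
  have h2 := (Real.hasDerivAt_arsinh (Real.cos u ^ 2)).comp u h1
  refine h2.congr_deriv ?_
  unfold a'
  norm_num

lemma a'_cont : Continuous a' := by
  unfold a'
  refine Continuous.mul (Continuous.inv₀ (by fun_prop) fun u => ?_) (by fun_prop)
  have : 0 < Real.sqrt (1 + (Real.cos u ^ 2) ^ 2) := Real.sqrt_pos.2 (by positivity)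
  exact this.ne'

lemma a'_le (u : ℝ) : |a' u| ≤ 1 := by
  unfold a'
  rw [abs_mul, abs_inv, abs_of_nonneg (Real.sqrt_nonneg _)]
  have h1 : 1 ≤ Real.sqrt (1 + (Real.cos u ^ 2) ^ 2) := by
    rw [Real.one_le_sqrt]
    have : 0 ≤ (Real.cos u ^ 2) ^ 2 := by positivity
    linarith
  have h2 : |2 * Real.cos u * (-Real.sin u)| ≤ 1 := by
    have h3 := Real.sin_sq_add_cos_sq u
    rw [abs_le]
    constructor <;> nlinarith [sq_nonneg (Real.sin u - Real.cos u), sq_nonneg (Real.sin u + Real.cos u)]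
  have h3 : (Real.sqrt (1 + (Real.cos u ^ 2) ^ 2))⁻¹ ≤ 1 := inv_le_one_of_one_le₀ h1
  calc _ ≤ (1 : ℝ) * 1 := mul_le_mul h3 h2 (abs_nonneg _) zero_le_one
    _ = 1 := one_mul 1

lemma a_bd (u : ℝ) : |a u| ≤ 1 := by
  unfold a
  have h0 : 0 ≤ Real.cos u ^ 2 := by positivity
  have h1 : 0 ≤ Real.arsinh (Real.cos u ^ 2) := Real.arsinh_nonneg_iff.2 h0
  rw [abs_of_nonneg h1]
  have h2 := Real.self_le_sinh_iff.2 h1
  rw [Real.sinh_arsinh] at h2
  exact h2.trans (Real.cos_sq_le_one u)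

lemma norm_gw (n : ℕ) (t u : ℝ) (ht : (n : ℝ) / 2 ≤ t) (hc : 0 ≤ Real.cos u) :
    ‖g n t ((u : ℂ) + (a u : ℝ) * I)‖ ≤ Real.exp (-((1 - Real.log 2) / 2) * n) := by
  rw [norm_g, a, Real.sinh_arsinh]
  exact bound n t _ ht hc (Real.cos_le_one u)

/-- deformation of the path -/
lemma path (n : ℕ) (t : ℝ) :
    ∫ u in (-(Real.pi / 2))..(Real.pi / 2), g n t (u : ℂ) =
      ∫ u in (-(Real.pi / 2))..(Real.pi / 2),
        g n t ((u : ℂ) + (a u : ℝ) * I) * (1 + (a' u : ℝ) * I) := by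
  obtain ⟨P, hP⟩ := DifferentiableOn.isExactOn_ball (c := (0 : ℂ)) (r := 10)
    (g_diff n t).differentiableOn
  have hpi := Real.pi_pos
  have hpi4 := Real.pi_le_four
  have hu : ∀ u ∈ uIcc (-(Real.pi / 2)) (Real.pi / 2), |u| ≤ 2 := by
    intro u hu
    rw [uIcc_of_le (by linarith)] at hu
    rw [abs_le]
    constructor <;> linarith [hu.1, hu.2]
  have h1 : ∫ u in (-(Real.pi / 2))..(Real.pi / 2), g n t (u : ℂ) =
      P ((Real.pi / 2 : ℝ) : ℂ) - P ((-(Real.pi / 2) : ℝ) : ℂ) := by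
    refine intervalIntegral.integral_eq_sub_of_hasDerivAt (f := fun u : ℝ => P (u : ℂ))
      (fun u hu' => ?_) ?_
    · have h2 : (u : ℂ) ∈ Metric.ball (0 : ℂ) 10 := by
        rw [mem_ball_zero_iff, Complex.norm_real, Real.norm_eq_abs]
        linarith [hu u hu']
      exact (hP _ h2).comp_ofReal
    · have hcont : Continuous fun x : ℝ => g n t (x : ℂ) :=
        (g_diff n t).continuous.comp Complex.continuous_ofReal
      exact hcont.intervalIntegrable _ _
  have h3 : ∫ u in (-(Real.pi / 2))..(Real.pi / 2),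
        g n t ((u : ℂ) + (a u : ℝ) * I) * (1 + (a' u : ℝ) * I) =
      P (((Real.pi / 2 : ℝ) : ℂ) + (a (Real.pi / 2) : ℝ) * I) -
        P (((-(Real.pi / 2) : ℝ) : ℂ) + (a (-(Real.pi / 2)) : ℝ) * I) := by
    refine intervalIntegral.integral_eq_sub_of_hasDerivAt
      (f := fun u : ℝ => P ((u : ℂ) + (a u : ℝ) * I)) (fun u hu' => ?_) ?_
    · have h2 : (u : ℂ) + (a u : ℝ) * I ∈ Metric.ball (0 : ℂ) 10 := by
        rw [mem_ball_zero_iff]
        refine (norm_add_le _ _).trans_lt ?_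
        rw [norm_mul, Complex.norm_real, Complex.norm_real, Complex.norm_I, Real.norm_eq_abs,
          Real.norm_eq_abs]
        linarith [hu u hu', a_bd u]
      have h4 : HasDerivAt (fun u : ℝ => (u : ℂ) + (a u : ℝ) * I) (1 + (a' u : ℝ) * I) u := by
        have h5 : HasDerivAt (fun u : ℝ => (u : ℂ)) 1 u := Complex.ofRealCLM.hasDerivAt
        have h6 : HasDerivAt (fun u : ℝ => ((a u : ℝ) : ℂ)) ((a' u : ℝ) : ℂ) u :=
          (a_deriv u).ofReal_comp
        exact h5.add (h6.mul_const I)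
      exact (hP _ h2).comp u h4
    · have hac : Continuous a := continuous_iff_continuousAt.2 fun u => (a_deriv u).continuousAt
      have hcont : Continuous fun u : ℝ =>
          g n t ((u : ℂ) + (a u : ℝ) * I) * (1 + (a' u : ℝ) * I) := by
        refine Continuous.mul ((g_diff n t).continuous.comp ?_) ?_
        · exact Complex.continuous_ofReal.add
            ((Complex.continuous_ofReal.comp hac).mul continuous_const)
        · exact continuous_const.add
            ((Complex.continuous_ofReal.comp a'_cont).mul continuous_const)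
      exact hcont.intervalIntegrable _ _
  have h7 : a (Real.pi / 2) = 0 := by
    rw [a, Real.cos_pi_div_two]; simp
  have h8 : a (-(Real.pi / 2)) = 0 := by
    rw [a, Real.cos_neg, Real.cos_pi_div_two]; simp
  rw [h1, h3, h7, h8]
  simp

theorem osc2 : S_OSC2 := by
  intro n t ht
  have hpi := Real.pi_pos
  set E : ℝ := Real.exp (-((1 - Real.log 2) / 2) * n) with hE
  have hE0 : 0 < E := Real.exp_pos _
  have hre : In n t = (∫ x in (-(Real.pi / 2))..(Real.pi / 2), g n t (x : ℂ)).re := by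
    have hcont : Continuous fun x : ℝ => g n t (x : ℂ) :=
      (g_diff n t).continuous.comp Complex.continuous_ofReal
    have := ContinuousLinearMap.intervalIntegral_comp_comm Complex.reCLM
      (hcont.intervalIntegrable (μ := volume) (-(Real.pi / 2)) (Real.pi / 2))
    rw [Complex.reCLM_apply] at this
    rw [← this]
    unfold In
    congr 1
    ext x
    rw [Complex.reCLM_apply]
    unfold g
    rw [← Complex.ofReal_sin, ← Complex.ofReal_cos]
    have e : I * (t : ℂ) * ((Real.sin x : ℝ) : ℂ) = ((t * Real.sin x : ℝ) : ℂ) * I := by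
      push_cast; ring
    rw [e, Complex.exp_mul_I, ← Complex.ofReal_sin, ← Complex.ofReal_cos, ← Complex.ofReal_pow,
      Complex.re_mul_ofReal, Complex.add_re, Complex.mul_I_re, Complex.ofReal_re,
      Complex.ofReal_im, neg_zero, add_zero]
  rw [hre]
  refine (Complex.abs_re_le_norm _).trans ?_
  rw [path]
  have h1 : ‖∫ u in (-(Real.pi / 2))..(Real.pi / 2),
        g n t ((u : ℂ) + (a u : ℝ) * I) * (1 + (a' u : ℝ) * I)‖ ≤
      (E * 2) * |Real.pi / 2 - -(Real.pi / 2)| := by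
    apply intervalIntegral.norm_integral_le_of_norm_le_const
    intro u hu
    rw [Set.uIoc_of_le (by linarith)] at hu
    have hc0 : 0 ≤ Real.cos u := Real.cos_nonneg_of_mem_Icc ⟨hu.1.le, hu.2⟩
    rw [norm_mul]
    refine mul_le_mul (norm_gw n t u ht hc0) ?_ (norm_nonneg _) hE0.le
    refine (norm_add_le _ _).trans ?_
    rw [norm_mul, Complex.norm_real, Complex.norm_I, norm_one, Real.norm_eq_abs]
    linarith [a'_le u]
  have hpiabs : |Real.pi / 2 - -(Real.pi / 2)| = Real.pi := by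
    rw [abs_of_nonneg (by linarith)]; ring
  rw [hpiabs] at h1
  linarith

end Pool.Agent.N603.HG.Osc2
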